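import Mathlib
import Pool.Agent.Lib.MP_4fb322_lc_h70.Defs

set_option autoImplicit false

/-!
# Sparse ages: definitions
-/

namespace Pool.Agent.Lib.MP_4fb322_lc_h91

open Pool.Agent.Lib.MP_4fb322_lc_h70

variable {I : Type} {ar : I → ℕ}

/-- Two distinct points of a structure on `V` are adjacent (relative to the default truth
values `δ`) if they lie together in a tuple whose membership in some relation differs from
the default value of this relation. For `δ = False` this is the Gaifman graph. -/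
def Adj {V : Type} (M : (i : I) → Set (Fin (ar i) → V)) (δ : I → Prop) (x y : V) : Prop :=
  x ≠ y ∧ ∃ (i : I) (s : Fin (ar i) → V), (∃ j, s j = x) ∧ (∃ k, s k = y) ∧
    ¬ (s ∈ M i ↔ δ i)

/-- The graph `Adj M δ` contains the complete bipartite graph `K_{t,t}` as a subgraph. -/
def HasBiclique {V : Type} (M : (i : I) → Set (Fin (ar i) → V)) (δ : I → Prop) (t : ℕ) :
    Prop :=
  ∃ a b : Fin t → V, Function.Injective a ∧ Function.Injective b ∧
    ∀ i j, Adj M δ (a i) (b j)

/-- An age is inexhaustible if any two members embed disjointly into a third one. -/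
def Inexhaustible (𝒜 : Set (Str ar)) : Prop :=
  ∀ A ∈ 𝒜, ∀ B ∈ 𝒜, ∃ C ∈ 𝒜, ∃ (f : Fin A.1 → Fin C.1) (g : Fin B.1 → Fin C.1),
    IsEmb A C f ∧ IsEmb B C g ∧ ∀ x y, f x ≠ g y

/-- The age of what is left of `M` outside the set `T`. -/
def ageOutside {V : Type} (M : (i : I) → Set (Fin (ar i) → V)) (T : Set V) : Set (Str ar) :=
  {A | ∃ f : Fin A.1 → V, Function.Injective f ∧ (∀ x, f x ∉ T) ∧
    ∀ (i : I) (s : Fin (ar i) → Fin A.1), s ∈ A.2 i ↔ f ∘ s ∈ M i}

/-- `𝒜` is closed under disjoint sums (relative to the default values `δ`): any two members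
embed disjointly into a third one, in such a way that no point of the first image is adjacent
to a point of the second image. -/
def DisjointSums (δ : I → Prop) (𝒜 : Set (Str ar)) : Prop :=
  ∀ A ∈ 𝒜, ∀ B ∈ 𝒜, ∃ C ∈ 𝒜, ∃ (f : Fin A.1 → Fin C.1) (g : Fin B.1 → Fin C.1),
    IsEmb A C f ∧ IsEmb B C g ∧ ∀ x y, f x ≠ g y ∧ ¬ Adj C.2 δ (f x) (g y)

end Pool.Agent.Lib.MP_4fb322_lc_h91
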