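import Mathlib
import Pool.Agent.Lib.MP_4fb322_lc_h70.LocFin
import Pool.Agent.Lib.MP_4fb322_lc_h91.Defs

set_option autoImplicit false

/-!
# Inexhaustible sparse ages are closed under disjoint sums
-/

namespace Pool.Agent.Lib.MP_4fb322_lc_h91

open Set Pool.Agent.Lib.MP_4fb322_lc_h70

variable {I : Type} {ar : I → ℕ}

theorem Adj.symm {V : Type} {M : (i : I) → Set (Fin (ar i) → V)} {δ : I → Prop} {x y : V}
    (h : Adj M δ x y) : Adj M δ y x := by
  obtain ⟨h1, i, s, h2, h3, h4⟩ := h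
  exact ⟨h1.symm, i, s, h3, h2, h4⟩

theorem Adj.map {A B : Str ar} {f : Fin A.1 → Fin B.1} (hf : IsEmb A B f) {δ : I → Prop}
    {x y : Fin A.1} (h : Adj A.2 δ x y) : Adj B.2 δ (f x) (f y) := by
  obtain ⟨h1, i, s, ⟨j, hj⟩, ⟨k, hk⟩, h4⟩ := h
  refine ⟨fun e => h1 (hf.1 e), i, f ∘ s, ⟨j, by simp [hj]⟩, ⟨k, by simp [hk]⟩, ?_⟩
  rwa [← hf.2 i s]

theorem Adj.mapV {V : Type} {M : (i : I) → Set (Fin (ar i) → V)} {A : Str ar}
    {f : Fin A.1 → V} (hf : Function.Injective f)
    (hr : ∀ (i : I) (s : Fin (ar i) → Fin A.1), s ∈ A.2 i ↔ f ∘ s ∈ M i) {δ : I → Prop}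
    {x y : Fin A.1} (h : Adj A.2 δ x y) : Adj M δ (f x) (f y) := by
  obtain ⟨h1, i, s, ⟨j, hj⟩, ⟨k, hk⟩, h4⟩ := h
  refine ⟨fun e => h1 (hf e), i, f ∘ s, ⟨j, by simp [hj]⟩, ⟨k, by simp [hk]⟩, ?_⟩
  rwa [← hr i s]

/-- `y` is a trap for `F` relative to `G`: every copy of `F` in `G` meets the closed
neighbourhood of `y` -/
def Trapped (δ : I → Prop) (F G H : Str ar) (g : Fin G.1 → Fin H.1) (y : Fin H.1) : Prop :=
  ∀ f : Fin F.1 → Fin G.1, IsEmb F G f → ∃ x, y = g (f x) ∨ Adj H.2 δ y (g (f x))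

section Core

variable {𝒜 : Set (Str ar)} {δ : I → Prop}

/-- many distinct traps at the same time -/
theorem many_traps (hinex : Inexhaustible 𝒜) {F : Str ar}
    (htrap : ∀ G ∈ 𝒜, ∃ H ∈ 𝒜, ∃ (g : Fin G.1 → Fin H.1) (y : Fin H.1), IsEmb G H g ∧
      Trapped δ F G H g y) (n : ℕ) :
    ∀ G ∈ 𝒜, ∃ H ∈ 𝒜, ∃ (g : Fin G.1 → Fin H.1) (y : Fin n → Fin H.1), IsEmb G H g ∧
      Function.Injective y ∧ (∀ i x, y i ≠ g x) ∧
      ∀ i, ∀ f : Fin F.1 → Fin G.1, IsEmb F G f → ∃ x, Adj H.2 δ (y i) (g (f x)) := by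
  induction n with
  | zero =>
    intro G hG
    exact ⟨G, hG, id, fun i => i.elim0, IsEmb.refl G, fun i => i.elim0, fun i => i.elim0,
      fun i => i.elim0⟩
  | succ n ih =>
    intro G hG
    obtain ⟨H, hH, g, y, hg, hy, hyg, hya⟩ := ih G hG
    obtain ⟨G2, hG2, h1, h2, he1, he2, hd⟩ := hinex H hH H hH
    obtain ⟨K, hK, k, z, hk, hz⟩ := htrap G2 hG2
    -- one of the two copies avoids `z`
    have hex : ∃ h : Fin H.1 → Fin G2.1, IsEmb H G2 h ∧ ∀ x, z ≠ k (h x) := by
      by_cases hc : ∃ x, z = k (h1 x)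
      · refine ⟨h2, he2, fun x hx => ?_⟩
        obtain ⟨x', hx'⟩ := hc
        exact hd x' x (hk.1 (hx'.symm.trans hx))
      · push Not at hc
        exact ⟨h1, he1, hc⟩
    obtain ⟨h, hh, hzh⟩ := hex
    have hkh : IsEmb H K (k ∘ h) := hh.trans hk
    refine ⟨K, hK, (k ∘ h) ∘ g, Fin.snoc (fun i => k (h (y i))) z, hg.trans hkh, ?_, ?_, ?_⟩
    · intro i j hij
      induction i using Fin.lastCases with
      | last =>
        induction j using Fin.lastCases with
        | last => rfl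
        | cast j =>
          simp only [Fin.snoc_last, Fin.snoc_castSucc] at hij
          exact absurd hij (hzh _)
      | cast i =>
        induction j using Fin.lastCases with
        | last =>
          simp only [Fin.snoc_last, Fin.snoc_castSucc] at hij
          exact absurd hij.symm (hzh _)
        | cast j =>
          simp only [Fin.snoc_castSucc] at hij
          rw [hy (hkh.1 hij)]
    · intro i x
      induction i using Fin.lastCases with
      | last =>
        simp only [Fin.snoc_last]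
        exact hzh _
      | cast i =>
        simp only [Fin.snoc_castSucc]
        exact fun e => hyg i x (hkh.1 e)
    · intro i f hf
      induction i using Fin.lastCases with
      | last =>
        obtain ⟨x, hx⟩ := hz (h ∘ g ∘ f) ((hf.trans hg).trans hh)
        refine ⟨x, ?_⟩
        simp only [Fin.snoc_last]
        rcases hx with hx | hx
        · exact absurd hx (hzh _)
        · exact hx
      | cast i =>
        obtain ⟨x, hx⟩ := hya i f hf
        refine ⟨x, ?_⟩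
        simp only [Fin.snoc_castSucc]
        exact hx.map hkh

/-- many pairwise disjoint copies -/
theorem many_copies (hinex : Inexhaustible 𝒜) {F : Str ar} (hF : F ∈ 𝒜) (m : ℕ) :
    ∃ G ∈ 𝒜, ∃ f : Fin m → Fin F.1 → Fin G.1, (∀ j, IsEmb F G (f j)) ∧
      ∀ j k, j ≠ k → ∀ x y, f j x ≠ f k y := by
  induction m with
  | zero => exact ⟨F, hF, fun j => j.elim0, fun j => j.elim0, fun j => j.elim0⟩
  | succ m ih =>
    obtain ⟨G, hG, f, hf, hd⟩ := ih
    obtain ⟨C, hC, a, b, ha, hb, hab⟩ := hinex G hG F hF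
    refine ⟨C, hC, Fin.snoc (fun j => a ∘ f j) b, ?_, ?_⟩
    · intro j
      induction j using Fin.lastCases with
      | last => simpa only [Fin.snoc_last] using hb
      | cast j => simpa only [Fin.snoc_castSucc] using (hf j).trans ha
    · intro j k hjk x y
      induction j using Fin.lastCases with
      | last =>
        induction k using Fin.lastCases with
        | last => exact absurd rfl hjk
        | cast k =>
          simp only [Fin.snoc_last, Fin.snoc_castSucc]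
          exact (hab _ _).symm
      | cast j =>
        induction k using Fin.lastCases with
        | last =>
          simp only [Fin.snoc_last, Fin.snoc_castSucc]
          exact hab _ _
        | cast k =>
          simp only [Fin.snoc_castSucc]
          exact fun e => hd j k (fun e' => hjk (by rw [e'])) x y (ha.1 e)

/-- no traps in a sparse inexhaustible age -/
theorem no_trap (hinex : Inexhaustible 𝒜) {t : ℕ}
    (hK : ∀ C ∈ 𝒜, ¬ HasBiclique C.2 δ t) {F : Str ar} (hF : F ∈ 𝒜) :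
    ∃ G ∈ 𝒜, ∀ H ∈ 𝒜, ∀ (g : Fin G.1 → Fin H.1) (y : Fin H.1), IsEmb G H g →
      ∃ f : Fin F.1 → Fin G.1, IsEmb F G f ∧ ∀ x, y ≠ g (f x) ∧ ¬ Adj H.2 δ y (g (f x)) := by
  classical
  by_contra hno
  push Not at hno
  have htrap : ∀ G ∈ 𝒜, ∃ H ∈ 𝒜, ∃ (g : Fin G.1 → Fin H.1) (y : Fin H.1), IsEmb G H g ∧
      Trapped δ F G H g y := by
    intro G hG
    obtain ⟨H, hH, g, y, hg, hall⟩ := hno G hG
    refine ⟨H, hH, g, y, hg, fun f hf => ?_⟩
    obtain ⟨x, hx⟩ := hall f hf
    refine ⟨x, ?_⟩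
    by_cases h : y = g (f x)
    · exact Or.inl h
    · exact Or.inr (hx h)
  obtain ⟨G, hG, f, hf, hd⟩ := many_copies hinex hF t
  obtain ⟨H, hH, g, y, hg, hy, -, hya⟩ := many_traps hinex htrap (t * F.1 ^ t) G hG
  choose p hp using fun i j => hya i (f j) (hf j)
  -- pigeonhole on `i ↦ (j ↦ p i j)`
  rcases Nat.eq_zero_or_pos t with rfl | ht
  · exact hK H hH ⟨fun i => i.elim0, fun i => i.elim0, fun i => i.elim0, fun i => i.elim0,
      fun i => i.elim0⟩
  rcases Nat.eq_zero_or_pos F.1 with h0 | h0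
  · -- the empty structure is never trapped
    obtain ⟨H', hH', g', y', hg', hy'⟩ := htrap F hF
    obtain ⟨x, -⟩ := hy' id (IsEmb.refl F)
    rw [h0] at x
    exact x.elim0
  have hcard : Fintype.card (Fin t → Fin F.1) * t ≤ Fintype.card (Fin (t * F.1 ^ t)) := by
    simp [Fintype.card_fin, mul_comm]
  have : Nonempty (Fin t → Fin F.1) := ⟨fun _ => ⟨0, h0⟩⟩
  obtain ⟨q, hq⟩ := Fintype.exists_le_card_fiber_of_mul_le_card (fun i => p i) hcard
  obtain ⟨s, hs, hsc⟩ := Finset.exists_subset_card_eq hq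
  refine hK H hH ⟨fun i => y (s.orderEmbOfFin hsc i), fun j => g (f j (q j)), ?_, ?_, ?_⟩
  · exact hy.comp (s.orderEmbOfFin hsc).injective
  · intro j k hjk
    by_contra hne
    exact hd j k hne _ _ (hg.1 hjk)
  · intro i j
    have h1 := hs (Finset.orderEmbOfFin_mem s hsc i)
    have h2 : p (s.orderEmbOfFin hsc i) = q := by simpa using h1
    have h3 := hp (s.orderEmbOfFin hsc i) j
    rwa [h2] at h3

/-- finitely many points are no trap either -/
theorem no_trap_set (hinex : Inexhaustible 𝒜) {t : ℕ}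
    (hK : ∀ C ∈ 𝒜, ¬ HasBiclique C.2 δ t) {F : Str ar} (hF : F ∈ 𝒜) (n : ℕ) :
    ∃ G ∈ 𝒜, ∀ H ∈ 𝒜, ∀ (g : Fin G.1 → Fin H.1) (D : Finset (Fin H.1)), D.card ≤ n →
      IsEmb G H g → ∃ f : Fin F.1 → Fin G.1, IsEmb F G f ∧ ∀ x, ∀ y ∈ D, y ≠ g (f x) ∧
        ¬ Adj H.2 δ y (g (f x)) := by
  classical
  induction n with
  | zero =>
    refine ⟨F, hF, fun H _ g D hD hg => ⟨id, IsEmb.refl F, fun x y hy => ?_⟩⟩
    rw [Finset.card_eq_zero.1 (Nat.le_zero.1 hD)] at hy
    simp at hy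
  | succ n ih =>
    obtain ⟨G, hG, h⟩ := ih
    obtain ⟨G₁, hG₁, h₁⟩ := no_trap hinex hK hG
    obtain ⟨G', hG', e₀, e₁, he₀, he₁, -⟩ := hinex G hG G₁ hG₁
    have h' : ∀ H ∈ 𝒜, ∀ (g : Fin G'.1 → Fin H.1) (y : Fin H.1), IsEmb G' H g →
        ∃ f : Fin G.1 → Fin G'.1, IsEmb G G' f ∧
          ∀ x, y ≠ g (f x) ∧ ¬ Adj H.2 δ y (g (f x)) := by
      intro H hH g y hg
      obtain ⟨f, hf, hf2⟩ := h₁ H hH (g ∘ e₁) y (he₁.trans hg)
      exact ⟨e₁ ∘ f, hf.trans he₁, hf2⟩
    refine ⟨G', hG', fun H hH g D hD hg => ?_⟩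
    rcases D.eq_empty_or_nonempty with rfl | ⟨d, hd⟩
    · obtain ⟨f, hf, -⟩ := h G hG id ∅ (by simp) (IsEmb.refl G)
      exact ⟨e₀ ∘ f, hf.trans he₀, fun x y hy => by simp at hy⟩
    · obtain ⟨e, he, he2⟩ := h' H hH g d hg
      obtain ⟨f, hf, hf2⟩ := h H hH (g ∘ e) (D.erase d) (by
        rw [Finset.card_erase_of_mem hd]
        omega) (he.trans hg)
      refine ⟨e ∘ f, hf.trans he, fun x y hy => ?_⟩
      by_cases hyd : y = d
      · subst hyd
        exact he2 (f x)
      · exact hf2 x y (Finset.mem_erase.2 ⟨hyd, hy⟩)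

/-- sparse inexhaustible ages are closed under disjoint sums -/
theorem disjointSums_of_sparse (h𝒜 : IsAge 𝒜) (hinex : Inexhaustible 𝒜) {t : ℕ}
    (hK : ∀ C ∈ 𝒜, ¬ HasBiclique C.2 δ t) : DisjointSums δ 𝒜 := by
  classical
  intro A hA B hB
  obtain ⟨G, hG, h⟩ := no_trap_set hinex hK hB A.1
  obtain ⟨C, hC, ⟨a, ha⟩, ⟨g, hg⟩⟩ := h𝒜.2.2 A hA G hG
  obtain ⟨f, hf, hf2⟩ := h C hC g (Finset.univ.image a)
    ((Finset.card_image_le).trans (by simp)) hg
  refine ⟨C, hC, a, g ∘ f, ha, hf.trans hg, fun x y => ?_⟩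
  exact hf2 y (a x) (Finset.mem_image_of_mem a (Finset.mem_univ x))

/-- closure under disjoint sums is closure under `q`-sums for the default pattern `q` -/
theorem sumClosed_of_disjointSums (h𝒜 : IsAge 𝒜) (h : DisjointSums δ 𝒜) :
    SumClosed (patt ar δ) 𝒜 := by
  classical
  intro A hA B hB
  obtain ⟨C, hC, f, g, hf, hg, hfg⟩ := h A hA B hB
  set X : Finset (Fin C.1) := Finset.univ.image f ∪ Finset.univ.image g with hX
  obtain ⟨f', hf', hff⟩ := emb_ind (X := X) hf fun x =>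
    Finset.mem_union_left _ (Finset.mem_image_of_mem f (Finset.mem_univ x))
  obtain ⟨g', hg', hgg⟩ := emb_ind (X := X) hg fun x =>
    Finset.mem_union_right _ (Finset.mem_image_of_mem g (Finset.mem_univ x))
  refine ⟨ind C X, h𝒜.2.1 _ C hC ⟨_, indMap_emb C X⟩,
    fun z => decide (∃ y, indMap C X z = g y), f', g', ?_, hf', hg', ?_, ?_⟩
  · rintro i s ⟨j, k, hjk⟩
    by_contra hne
    have hne' : ¬ (s ∈ (ind C X).2 i ↔ δ i) := hne
    -- two points of the tuple in different classes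
    have key : ∀ j k, decide (∃ y, indMap C X (s j) = g y) = true →
        decide (∃ y, indMap C X (s k) = g y) = false → False := by
      intro j k hj hk
      simp only [decide_eq_true_eq, decide_eq_false_iff_not] at hj hk
      obtain ⟨y, hy⟩ := hj
      have hmem := indMap_mem C X (s k)
      rcases Finset.mem_union.1 hmem with hm | hm
      · obtain ⟨x, -, hx⟩ := Finset.mem_image.1 hm
        apply (hfg x y).2
        have h1 : Adj (ind C X).2 δ (s k) (s j) := by
          refine ⟨fun e => (hfg x y).1 ?_, i, s, ⟨k, rfl⟩, ⟨j, rfl⟩, hne'⟩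
          rw [hx, ← hy, e]
        have h2 := h1.map (indMap_emb C X)
        rwa [← hx, hy] at h2
      · obtain ⟨x, -, hx⟩ := Finset.mem_image.1 hm
        exact hk ⟨x, hx.symm⟩
    rcases Bool.eq_false_or_eq_true (decide (∃ y, indMap C X (s j) = g y)) with hj | hj <;>
      rcases Bool.eq_false_or_eq_true (decide (∃ y, indMap C X (s k) = g y)) with hk | hk
    · exact hjk (hj.trans hk.symm)
    · exact key j k hj hk
    · exact key k j hk hj
    · exact hjk (hj.trans hk.symm)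
  · intro x
    simp only [decide_eq_false_iff_not]
    rintro ⟨y, hy⟩
    rw [hff] at hy
    exact (hfg x y).1 hy
  · intro x
    simp only [decide_eq_true_eq]
    exact ⟨x, hgg x⟩

end Core

/-! ## Structures on a set `V` -/

section OnV

variable {V : Type} {M : (i : I) → Set (Fin (ar i) → V)} {δ : I → Prop}

theorem ageOutside_eq (T : Set V) : ageOutside M T = ageOn M Tᶜ := rfl

theorem ageOn_univ : ageOn M Set.univ = ageOf M := by
  ext A
  constructor
  · rintro ⟨f, hf, -, hr⟩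
    exact ⟨f, hf, hr⟩
  · rintro ⟨f, hf, hr⟩
    exact ⟨f, hf, fun x => Set.mem_univ _, hr⟩

theorem noBiclique_of_mem {t : ℕ} (hK : ¬ HasBiclique M δ t) {X : Set V} {C : Str ar}
    (hC : C ∈ ageOn M X) : ¬ HasBiclique C.2 δ t := by
  rintro ⟨a, b, ha, hb, hab⟩
  obtain ⟨f, hf, -, hr⟩ := hC
  exact hK ⟨f ∘ a, f ∘ b, hf.comp ha, hf.comp hb, fun i j => (hab i j).mapV hf hr⟩

theorem inexhaustible_of_kernel {T : Set V} (hk : Kernel M T) :
    Inexhaustible (ageOn M Tᶜ) := by
  classical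
  intro A hA B hB
  obtain ⟨f, hf, hfT, hfr⟩ := hA
  obtain ⟨Y, hYT, hBY, hYB⟩ := exists_indV_of_mem M hB
  have h1 : VE M (Y : Set V) Tᶜ :=
    ⟨id, ⟨fun x _ y _ h => h, fun i t _ => Iff.rfl⟩, fun y hy => hYT hy⟩
  have h2 := hk (Set.range f) (Set.finite_range f) (Y : Set V) (Finset.finite_toSet Y) h1
  have h3 : B ∈ ageOn M (T ∪ Set.range f)ᶜ :=
    (ageOn_isAge M _).2.1 B _ (indV_mem_ageOn M h2) hBY
  obtain ⟨g, hg, hgT, hgr⟩ := h3
  set X : Finset V := Finset.univ.image f ∪ Finset.univ.image g with hX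
  have hfX : ∀ x, f x ∈ X := fun x =>
    Finset.mem_union_left _ (Finset.mem_image_of_mem f (Finset.mem_univ x))
  have hgX : ∀ x, g x ∈ X := fun x =>
    Finset.mem_union_right _ (Finset.mem_image_of_mem g (Finset.mem_univ x))
  choose f' hf' using fun x => exists_indVMap M X (hfX x)
  choose g' hg' using fun x => exists_indVMap M X (hgX x)
  refine ⟨indV M X, ?_, f', g', ⟨?_, ?_⟩, ⟨?_, ?_⟩, ?_⟩
  · apply indV_mem_ageOn
    refine ⟨id, ⟨fun x _ y _ h => h, fun i t _ => Iff.rfl⟩, ?_⟩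
    intro y hy
    rcases Finset.mem_union.1 (Finset.mem_coe.1 hy) with hy | hy
    · obtain ⟨x, -, rfl⟩ := Finset.mem_image.1 hy
      exact hfT x
    · obtain ⟨x, -, rfl⟩ := Finset.mem_image.1 hy
      exact fun h => hgT x (Or.inl h)
  · intro x y hxy
    apply hf
    rw [← hf' x, ← hf' y, hxy]
  · intro i s
    rw [hfr i s, indVMap_rel]
    have : f ∘ s = indVMap M X ∘ f' ∘ s := by
      funext j
      exact (hf' (s j)).symm
    rw [this]
  · intro x y hxy
    apply hg
    rw [← hg' x, ← hg' y, hxy]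
  · intro i s
    rw [hgr i s, indVMap_rel]
    have : g ∘ s = indVMap M X ∘ g' ∘ s := by
      funext j
      exact (hg' (s j)).symm
    rw [this]
  · intro x y hxy
    apply hgT y
    right
    exact ⟨x, by rw [← hf' x, hxy, hg' y]⟩

/-- the finite kernel of a sparse structure with well-founded age -/
theorem exists_finite_deletion {t : ℕ} (hK : ¬ HasBiclique M δ t)
    (hwf : SubagesWF (ageOf M)) : ∃ T : Set V, T.Finite ∧ DisjointSums δ (ageOutside M T) ∧
      NoAntichain (ageOutside M T) := by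
  have hwf' : SubagesWF (ageOn M Set.univ) := by rwa [ageOn_univ]
  obtain ⟨T, hT, hk⟩ := exists_kernel hwf'
  have h1 : DisjointSums δ (ageOn M Tᶜ) :=
    disjointSums_of_sparse (ageOn_isAge M Tᶜ) (inexhaustible_of_kernel hk)
      (fun C hC => noBiclique_of_mem hK hC)
  refine ⟨T, hT, h1, ?_⟩
  rw [ageOutside_eq]
  exact noAntichain_of_sumClosed (ageOn_isAge M Tᶜ)
    (sumClosed_of_disjointSums (ageOn_isAge M Tᶜ) h1)
    (hwf'.mono (ageOn_mono M (Set.subset_univ _)))

end OnV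

end Pool.Agent.Lib.MP_4fb322_lc_h91
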